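import Pool.Agent.Helper27.FMEven.Stmt

/-!
# Even representations are rigid under a class number condition

`Qb` is an algebraic closure of the rational numbers, `GQ` its Galois group with the Krull
topology, `IsCC c` says that `c` is a complex conjugation.
-/

open Pool.Agent.Helper60.FM Helper27.FMEven

namespace Pool.Agent.Results.MP_b583a4_nt.EvenRigid

/-- Let `p` be an odd prime, `V : GQ → GL₂(E)` continuous and even, unramified outside the set
`S` of primes, `K/ℚ` a finite Galois CM extension containing the `p`-th roots of unity such that
`tr² - 4 det` has norm less than 1 on `Gal(Qb/K)` (the residual representation is scalar up to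
unipotent elements on `Gal(Qb/K)`).  Suppose that no ideal class of `K` different from 1 is
killed by `p` and by `1 + c`, and that the primes of `K` above `S` are stable under complex
conjugation.  Then `V` has a stable line, or has commutative image, or is scalar on an open
subgroup. -/
theorem result (p : ℕ) [Fact p.Prime] (hp : p ≠ 2) {E : Type*}
    [NormedField E] [IsUltrametricDist E] [NormedAlgebra ℚ_[p] E]
    (V : GQ →* GL (Fin 2) E) (hV : Continuous V) (heven : EvenRep V)
    (S : Set ℕ) (hS : UnramOutside V S)
    (K : IntermediateField ℚ Qb) (hK : Admissible p S K)
    (hres : DiscSmall (mats V K.fixingSubgroup)) :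
    StableLine (mats V Set.univ) ∨ CommImage V ∨ ScalarOnOpen V :=
  main_stmt p hp V hV heven S hS K hK hres

end Pool.Agent.Results.MP_b583a4_nt.EvenRigid
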