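import Pool.Agent.Helper27.FM.Twist

/-!
# MP_b583a4_nt: independence of the local Frobenius fields of several representations

For finitely many strongly irreducible two-dimensional `ℚ_p`-representations, no two of which are
twists of each other, all combinations of square classes of the discriminants of the
characteristic polynomials occur, on every dense set and arbitrarily close to the identity.
-/

set_option autoImplicit false
open Matrix Filter Topology Pool.Agent.Helper27.FM

namespace Pool.Agent.Results.MP_b583a4_nt.FrobeniusFieldIndependence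

/-- the discriminant `tr(a)² - 4 det(a)` of the characteristic polynomial -/
noncomputable def disc {p : ℕ} [Fact p.Prime] (a : Matrix (Fin 2) (Fin 2) ℚ_[p]) : ℚ_[p] :=
  a.trace ^ 2 - 4 * a.det

/-- the elements `d t²`, `t ≠ 0` -/
def SqClass {p : ℕ} [Fact p.Prime] (d : ℚ_[p]) : Set ℚ_[p] :=
  {x | ∃ t : ℚ_[p], t ≠ 0 ∧ x = d * t ^ 2}

lemma isOpen_sqClass {p : ℕ} [hp : Fact p.Prime] {d : ℚ_[p]} (hd : d ≠ 0) :
    IsOpen (SqClass d) := by
  rw [isOpen_iff_mem_nhds]
  rintro x ⟨t, ht, rfl⟩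
  have h1 : HasStrictDerivAt (fun t : ℚ_[p] => d * t ^ 2) (d * (2 * t)) t := by
    have h2 := (hasStrictDerivAt_pow 2 t).const_mul d
    simpa using h2
  have h3 : d * (2 * t) ≠ 0 := mul_ne_zero hd (mul_ne_zero two_ne_zero ht)
  have h4 := h1.map_nhds_eq h3
  rw [← h4]
  refine mem_of_superset (image_mem_map (s := {t : ℚ_[p] | t ≠ 0}) (isOpen_ne.mem_nhds ht)) ?_
  rintro _ ⟨s, hs, rfl⟩
  exact ⟨s, hs, rfl⟩

lemma sqClass_smul {p : ℕ} [hp : Fact p.Prime] {d c x : ℚ_[p]} (hc : c ≠ 0) :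
    c ^ 2 * x ∈ SqClass d ↔ x ∈ SqClass d := by
  constructor
  · rintro ⟨t, ht, h⟩
    refine ⟨t / c, div_ne_zero ht hc, ?_⟩
    field_simp
    rw [mul_comm]
    exact h
  · rintro ⟨t, ht, h⟩
    refine ⟨c * t, mul_ne_zero hc ht, ?_⟩
    rw [h]; ring

lemma disc_smul {p : ℕ} [hp : Fact p.Prime] (c : ℚ_[p]) (a : M2 ℚ_[p]) :
    disc (c • a) = c ^ 2 * disc a := by
  unfold disc
  rw [Matrix.trace_smul, Matrix.det_smul, Fintype.card_fin, smul_eq_mul]; ring

lemma disc_sub_one {p : ℕ} [hp : Fact p.Prime] (a : M2 ℚ_[p]) : disc (a - 1) = disc a := by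
  unfold disc
  rw [tr_def, tr_def, det_def, det_def]
  simp
  ring

lemma continuous_disc {p : ℕ} [hp : Fact p.Prime] :
    Continuous (disc : M2 ℚ_[p] → ℚ_[p]) := by
  have h1 : Continuous (fun a : M2 ℚ_[p] => a.trace ^ 2) := continuous_id.matrix_trace.pow 2
  have h0 : Continuous (fun a : M2 ℚ_[p] => a.det) := continuous_id.matrix_det
  have h2 : Continuous (fun a : M2 ℚ_[p] => 4 * a.det) := by
    exact continuous_const.mul h0
  exact h1.sub h2

theorem result (p : ℕ) [hp : Fact p.Prime]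
    -- a profinite group
    {G : Type*} [Group G] [TopologicalSpace G] [IsTopologicalGroup G] [CompactSpace G]
    [TotallyDisconnectedSpace G]
    -- strongly irreducible representations, pairwise not twists of each other
    {ι : Type*} [Finite ι] (V : ι → G →* GL (Fin 2) ℚ_[p]) (hV : ∀ i, Continuous (V i))
    (hirr : ∀ i, StronglyIrreducible (V i)) (hne : ∀ i j, i ≠ j → ¬ IsTwist (V i) (V j))
    -- prescribed classes, a dense set and a neighbourhood of the identity
    (d : ι → ℚ_[p]) (hd : ∀ i, d i ≠ 0)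
    (D : Set G) (hD : Dense D) (N : Set G) (hN : N ∈ 𝓝 (1 : G)) :
    ∃ g ∈ D ∩ N, ∀ i, disc (V i g : Matrix (Fin 2) (Fin 2) ℚ_[p]) ∈ SqClass (d i) := by
  classical
  have : Fintype ι := Fintype.ofFinite ι
  have hp0 : (p : ℚ_[p]) ≠ 0 := p_ne_zero' p
  obtain ⟨U, hU, hUo, hUs, hUN⟩ := exists_small p hV isOpen_interior
    (mem_interior_iff_mem_nhds.mpr hN)
  have hfull : ∀ i, ∀ x : M2 ℚ_[p], x.trace = 0 → Pi.single i x ∈ LSp p V U := by
    intro i
    rcases dichotomy p hV hU hUo hUs i ((strIrr_iff _).mp (hirr i)) with ⟨k, hk, hh, hk'⟩ | h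
    · exact absurd (isTwist_of (hV i) (hV k) hk') (hne i k (Ne.symm hk))
    · exact h
  -- the target
  let w : ι → M2 ℚ_[p] := fun i => !![0, d i; 1, 0]
  have hw : w ∈ LSp p V U := by
    have : w = ∑ i, Pi.single i (w i) := by
      rw [Finset.univ_sum_single]
    rw [this]
    exact Submodule.sum_mem _ fun i _ => hfull i _ (by simp [w, Matrix.trace_fin_two_of])
  have hwd : ∀ i, disc (w i) ∈ SqClass (d i) := by
    intro i
    refine ⟨2, two_ne_zero, ?_⟩
    simp only [disc, w, Matrix.trace_fin_two_of, Matrix.det_fin_two_of]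
    ring
  -- an open condition
  let O : Set (ι → M2 ℚ_[p]) := ⋂ i, {z | disc (z i) ∈ SqClass (d i)}
  have hO : IsOpen O := isOpen_iInter_of_finite fun i =>
    (isOpen_sqClass (hd i)).preimage (continuous_disc.comp (continuous_apply i))
  have hwO : w ∈ O := by
    simp only [O, Set.mem_iInter]
    exact hwd
  obtain ⟨z, hzO, m, w', hw', rfl⟩ := mem_closure_iff.mp (LSp_le_closure hw) O hO hwO
  obtain ⟨g, hg, hl⟩ := hw'
  have hw'd : ∀ i, disc (w' i) ∈ SqClass (d i) := by
    intro i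
    simp only [O, Set.mem_iInter] at hzO
    have h1 : disc (((p : ℚ_[p]) ^ m)⁻¹ • w' i) ∈ SqClass (d i) := hzO i
    rw [disc_smul, sqClass_smul (inv_ne_zero (pow_ne_zero _ hp0))] at h1
    exact h1
  have hev : ∀ i, ∀ᶠ n in atTop, disc (V i (g n) : M2 ℚ_[p]) ∈ SqClass (d i) := by
    intro i
    have h1 := (continuous_disc.tendsto (w' i)).comp (hl i)
    have h2 := h1.eventually ((isOpen_sqClass (hd i)).mem_nhds (hw'd i))
    refine h2.mono fun n hn => ?_
    have hn' : disc (((p : ℚ_[p]) ^ n)⁻¹ • ((V i (g n) : M2 ℚ_[p]) - 1)) ∈ SqClass (d i) := hn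
    rw [disc_smul, disc_sub_one, sqClass_smul (inv_ne_zero (pow_ne_zero _ hp0))] at hn'
    exact hn'
  obtain ⟨n, hn⟩ := (eventually_all.mpr hev).exists
  -- density
  let O' : Set G := interior N ∩ ⋂ i, {g | disc (V i g : M2 ℚ_[p]) ∈ SqClass (d i)}
  have hO' : IsOpen O' := by
    apply isOpen_interior.inter
    exact isOpen_iInter_of_finite fun i =>
      (isOpen_sqClass (hd i)).preimage (continuous_disc.comp (Units.continuous_val.comp (hV i)))
  have hgO' : g n ∈ O' := by
    refine ⟨hUN (hg n), ?_⟩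
    simp only [Set.mem_iInter]
    exact hn
  obtain ⟨x, hxO, hxD⟩ := hD.inter_open_nonempty O' hO' ⟨_, hgO'⟩
  refine ⟨x, ⟨hxD, interior_subset hxO.1⟩, fun i => ?_⟩
  have := hxO.2
  simp only [Set.mem_iInter] at this
  exact this i

end Pool.Agent.Results.MP_b583a4_nt.FrobeniusFieldIndependence
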