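import Pool.Agent.Helper37.Fd.MainD

/-!
# MP_b583a4_nt: a dichotomy for `V` and finitely many modular representations

`V` is a strongly irreducible two-dimensional representation over a finite Galois extension `E` of
`ℚ_p`, the `ρ i` are finitely many arbitrary two-dimensional representations over `E`, the `T j`
finitely many representations over `ℚ_p` of any dimensions in whose endomorphisms `ad⁰ V` does not
occur over `E`.  Either `V` is a twist of a Galois conjugate of some `ρ i`, or `V` is independent of
all of them: on every open subgroup the image under `V` of the common kernel of the `ρ i` and `T j`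
contains a neighbourhood of `1` in `V(G) ∩ SL_2(E)`.  The first case holds as soon as this common
kernel acts by scalars on an open subgroup.
-/

set_option autoImplicit false
open Pool.Agent.Helper27.FM Pool.Agent.Helper37.Fd

namespace Pool.Agent.Results.MP_b583a4_nt.ModularDichotomy

theorem result (p : ℕ) [hp : Fact p.Prime]
    -- the coefficient field, a finite Galois extension of `ℚ_p`
    {E : Type*} [NontriviallyNormedField E] [IsUltrametricDist E] [NormedAlgebra ℚ_[p] E]
    [FiniteDimensional ℚ_[p] E] [IsGalois ℚ_[p] E]
    -- a profinite group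
    {G : Type*} [Group G] [TopologicalSpace G] [IsTopologicalGroup G] [CompactSpace G]
    [TotallyDisconnectedSpace G]
    -- a strongly irreducible representation
    (V : G →* GL (Fin 2) E) (hV : Continuous V) (hirr : StronglyIrreducible V)
    -- finitely many two-dimensional representations
    {ι : Type*} [Finite ι] (ρ : ι → G →* GL (Fin 2) E) (hρ : ∀ i, Continuous (ρ i))
    -- finitely many representations over `ℚ_p`, with no `ad⁰ V` in their endomorphisms
    {J : Type*} [Finite J] (n : J → ℕ) (T : ∀ j, G →* GL (Fin (n j)) ℚ_[p])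
    (hT : ∀ j, Continuous (T j)) (hocc : ∀ j, ¬ AdOccurs V (baseChange E (T j))) :
    ((∃ (i : ι) (τ : E ≃ₐ[ℚ_[p]] E), IsTwist V (conjugate τ (ρ i))) ↔
      ∃ U : Subgroup G, IsOpen (U : Set G) ∧ ∀ g ∈ U, (∀ i, ρ i g = 1) → (∀ j, T j g = 1) →
        ∃ c : E, (V g : Matrix (Fin 2) (Fin 2) E) = c • (1 : Matrix (Fin 2) (Fin 2) E)) ∧
    ((∃ (i : ι) (τ : E ≃ₐ[ℚ_[p]] E), IsTwist V (conjugate τ (ρ i))) ↔ ¬ Independent V ρ T) :=
  dichotomy p V hV hirr ρ hρ n T hT hocc

end Pool.Agent.Results.MP_b583a4_nt.ModularDichotomy
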