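import Mathlib
import Pool.Agent.Helper27.MarkoffDefs
import Pool.Agent.Helper27.MarkoffExcDefs
import Pool.Agent.Helper27.MkEps

set_option autoImplicit false

namespace Pool.Agent.Results.MP_c86b5e_nt.MostLevels

open Pool.Agent.Helper27

/-- The assertion of Q1 for the pair `(p, k)`: `M_k(F_p) \ E_k` is a single orbit. -/
def SingleOrbit (p : ℕ) [Fact p.Prime] (k : ZMod p) : Prop :=
  ∃ P ∈ markoffLevel (ZMod p) k, markoffLevel (ZMod p) k \ exceptionalSet (ZMod p) k =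
    MulAction.orbit (markoffGroup (ZMod p)) P

/-- For every `ε > 0` and every prime `p ≥ p₀(ε)`:
(1) Q1 holds for `(p, k)` whenever `k ≠ ±2` and `-ζ` has order at least `p^ε`, `ζ + ζ⁻¹ = k`;
(2) Q1 holds for all `k ≠ ±2` with at most `p^ε` exceptions;
(3) for every `k ≠ 2` all but at most `p^ε` points of `M_k(F_p)` form one orbit, and every other
orbit contains a point with a zero coordinate. -/
theorem result (ε : ℝ) (hε : 0 < ε) : ∃ p₀ : ℕ, ∀ (p : ℕ) [Fact p.Prime], p₀ ≤ p →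
    (∀ k : ZMod p, k ≠ 2 → k ≠ -2 → ∀ ζ : AlgebraicClosure (ZMod p),
      ζ ^ 2 - algebraMap (ZMod p) (AlgebraicClosure (ZMod p)) k * ζ + 1 = 0 →
      (p : ℝ) ^ ε ≤ orderOf (-ζ) → SingleOrbit p k) ∧
    (({k : ZMod p | k ≠ 2 ∧ k ≠ -2 ∧ ¬ SingleOrbit p k}.ncard : ℝ) ≤ (p : ℝ) ^ ε) ∧
    (∀ k : ZMod p, k ≠ 2 → ∃ P ∈ markoffLevel (ZMod p) k,
      (((markoffLevel (ZMod p) k \ MulAction.orbit (markoffGroup (ZMod p)) P).ncard : ℝ) ≤
        (p : ℝ) ^ ε) ∧
      ∀ Q ∈ markoffLevel (ZMod p) k, Q ∉ MulAction.orbit (markoffGroup (ZMod p)) P →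
        ∃ R ∈ MulAction.orbit (markoffGroup (ZMod p)) Q, R.1 = 0) := by
  classical
  obtain ⟨p0, hp0⟩ := eventually_conditions ε hε
  refine ⟨p0 + 3, fun p _ hp => ?_⟩
  obtain ⟨c1, c2, c3, c4, c5⟩ := hp0 p (by omega)
  refine ⟨?_, ?_, ?_⟩
  · intro k hk hk' ζ hζ hord
    apply single_of_large hk hk' c1 c2 ζ hζ
    have : ((smallB (Dv p).card : ℕ) : ℝ) < ((orderOf (-ζ) : ℕ) : ℝ) := lt_of_lt_of_le c4 hord
    exact_mod_cast this
  · have hsub : {k : ZMod p | k ≠ 2 ∧ k ≠ -2 ∧ ¬ SingleOrbit p k} ⊆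
        ((Finset.univ.filter
          (fun k : ZMod p => orderOf (-(wOf p k)) ≤ smallB (Dv p).card) : Finset (ZMod p)) :
          Set (ZMod p)) := by
      rintro k ⟨hk, hk', hns⟩
      rw [Finset.mem_coe, Finset.mem_filter]
      refine ⟨Finset.mem_univ _, ?_⟩
      by_contra hcon
      push Not at hcon
      exact hns (single_of_large hk hk' c1 c2 (wOf p k) (wOf_spec p k) hcon)
    have h1 := (Set.ncard_le_ncard hsub (Finset.finite_toSet _)).trans
      ((Set.ncard_coe_finset _).le.trans (few_levels (p := p) (smallB (Dv p).card)))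
    refine le_trans ?_ c5
    exact_mod_cast h1
  · intro k hk
    have hp2 : p ≠ 2 := by omega
    have h4 : (0 : ZMod p) ^ 2 ≠ 4 := by
      intro h
      have h' : ((4 : ℕ) : ZMod p) = 0 := by
        push_cast
        rw [← h]
        ring
      rw [ZMod.natCast_eq_zero_iff] at h'
      have h2 : p ∣ 2 ^ 2 := h'
      have := (Fact.out : p.Prime).dvd_of_dvd_pow h2
      exact hp2 ((Nat.prime_dvd_prime_iff_eq (Fact.out : p.Prime) Nat.prime_two).1 this)
    obtain ⟨y, z, hyz⟩ := exists_point p hp2 k 0 h4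
    obtain ⟨P, hPm, hcard, hz⟩ := others_small hk c1 c2 c3 ⟨(0, y, z), hyz⟩
    refine ⟨P, hPm, ?_, hz⟩
    refine le_trans ?_ c4.le
    exact_mod_cast hcard

end Pool.Agent.Results.MP_c86b5e_nt.MostLevels
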