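import Mathlib
import Pool.Agent.Helper27.MarkoffDefs
import Pool.Agent.Helper27.MarkoffDiv

set_option autoImplicit false

namespace Pool.Agent.Results.MP_c86b5e_nt.OrbitSizeDivisible

open Pool.Agent.Helper27

/-- Let `k ≠ ±2` and let `ζ` be a root of `ζ² - kζ + 1 = 0` in some extension field (so
`ζ + ζ⁻¹ = k`). Every finite `Γ`-stable subset of `M_k(F)` that contains no point `(t, 0, 0)` has
cardinality divisible by the order of `-ζ`. -/
theorem result {F L : Type*} [Field F] [Field L] [Algebra F L] (k : F) (hk : k ≠ 2)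
    (hk' : k ≠ -2) (O : Set (F × F × F)) (hfin : O.Finite) (hsub : O ⊆ markoffLevel F k)
    (hstable : ∀ g ∈ markoffGroup F, ∀ P ∈ O, g P ∈ O) (hex : ∀ t : F, (t, 0, 0) ∉ O)
    (ζ : L) (hζ : ζ ^ 2 - algebraMap F L k * ζ + 1 = 0) :
    orderOf (-ζ) ∣ O.ncard := by
  classical
  have hζ0 : ζ ≠ 0 := by
    rintro rfl
    simp at hζ
  have inj := (algebraMap F L).injective
  have h1 : ζ ≠ 1 := by
    rintro rfl
    apply hk
    apply inj
    rw [map_ofNat]
    linear_combination -hζ
  have h1' : 1 + ζ ≠ 0 := by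
    intro h
    have h2 : ζ = -1 := by linear_combination h
    rw [h2] at hζ
    apply hk'
    apply inj
    rw [map_neg, map_ofNat]
    linear_combination hζ
  -- the map to `L³`
  let φ : F × F × F → L × L × L :=
    fun P => (algebraMap F L P.1, algebraMap F L P.2.1, algebraMap F L P.2.2)
  have hφ : Function.Injective φ := by
    intro P Q h
    simp only [φ, Prod.mk.injEq] at h
    exact Prod.ext (inj h.1) (Prod.ext (inj h.2.1) (inj h.2.2))
  set OL : Finset (L × L × L) := hfin.toFinset.image φ with hOL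
  have hcard : OL.card = O.ncard := by
    rw [hOL, Finset.card_image_of_injective _ hφ, Set.ncard_eq_toFinset_card O hfin]
  have g1 : swapXY F * vieta F ∈ markoffGroup F :=
    mul_mem (Subgroup.subset_closure (by simp)) (Subgroup.subset_closure (by simp))
  have g2 : vieta F * swapYZ F ∈ markoffGroup F :=
    mul_mem (Subgroup.subset_closure (by simp)) (Subgroup.subset_closure (by simp))
  have key := transfer ζ hζ0 h1 h1' OL ?_ ?_ ?_ ?_
  · rw [hcard] at key
    exact orderOf_dvd_of_pow_eq_one key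
  · intro Q hQ
    obtain ⟨P, hP, rfl⟩ := Finset.mem_image.1 hQ
    have hP' := hsub (hfin.mem_toFinset.1 hP)
    unfold markoffLevel at hP'
    simp only [Set.mem_ofPred_eq] at hP'
    have hP2 := congrArg (algebraMap F L) hP'
    simp only [map_sub, map_add, map_mul, map_pow, map_ofNat] at hP2
    unfold LevelZ
    simp only [φ]
    linear_combination ζ * hP2 - hζ
  · intro Q hQ
    obtain ⟨P, hP, rfl⟩ := Finset.mem_image.1 hQ
    refine Finset.mem_image.2 ⟨_, hfin.mem_toFinset.2
      (hstable _ g1 P (hfin.mem_toFinset.1 hP)), ?_⟩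
    simp only [φ, mapD, swapXY, vieta, Equiv.Perm.coe_mul, Function.comp, Equiv.coe_fn_mk,
      map_sub, map_mul]
  · intro Q hQ
    obtain ⟨P, hP, rfl⟩ := Finset.mem_image.1 hQ
    refine Finset.mem_image.2 ⟨_, hfin.mem_toFinset.2
      (hstable _ g2 P (hfin.mem_toFinset.1 hP)), ?_⟩
    simp only [φ, mapS, swapYZ, vieta, Equiv.Perm.coe_mul, Function.comp, Equiv.coe_fn_mk,
      map_sub, map_mul]
  · intro Q hQ
    obtain ⟨P, hP, rfl⟩ := Finset.mem_image.1 hQ
    rintro ⟨h2, h3⟩
    apply hex P.1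
    have e2 : P.2.1 = 0 := inj (by rw [map_zero]; exact h2)
    have e3 : P.2.2 = 0 := inj (by rw [map_zero]; exact h3)
    have : P = (P.1, 0, 0) := Prod.ext rfl (Prod.ext e2 e3)
    rw [← this]
    exact hfin.mem_toFinset.1 hP

end Pool.Agent.Results.MP_c86b5e_nt.OrbitSizeDivisible
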