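import Mathlib
import Pool.Agent.Helper27.WalkDefs
import Pool.Agent.Helper27.WalkCuts

set_option autoImplicit false

namespace Pool.Agent.Results.MP_d44763_nt.PeriodicWalksHitPrimes

open Pool.Agent.Helper27

/-- Let `i = 2 ^ u` with `u ≥ 1` and `j = b * i` with `b` one of `2, 4, 8, 16, 256`. Then every
`(i, j)`-walk from an odd integer whose sequence of steps is eventually periodic has infinitely
many prime terms. -/
theorem result (u b : ℕ) (hu : 1 ≤ u) (hb : b = 2 ∨ b = 4 ∨ b = 8 ∨ b = 16 ∨ b = 256)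
    (k : ℤ) (hk : Odd k) (A : ℕ → ℤ) (hA : IsWalk (2 ^ u) (2 ^ u * b) k A)
    (hper : ∃ N T : ℕ, 0 < T ∧ ∀ n : ℕ, N ≤ n → A (n + T + 1) - A (n + T) = A (n + 1) - A n) :
    {n : ℕ | IsPosPrime (A n)}.Infinite := by
  rcases hb with rfl | rfl | rfl | rfl | rfl
  · exact periodic_hits u 2 hu (by norm_num) list2 cut2 adm2 k hk A hA hper
  · exact periodic_hits u 4 hu (by norm_num) list4 cut4 adm4 k hk A hA hper
  · exact periodic_hits u 8 hu (by norm_num) list8 cut8 adm8 k hk A hA hper
  · exact periodic_hits u 16 hu (by norm_num) list16 cut16 adm16 k hk A hA hper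
  · exact periodic_hits u 256 hu (by norm_num) list256 cut256 adm256 k hk A hA hper

end Pool.Agent.Results.MP_d44763_nt.PeriodicWalksHitPrimes
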