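import Mathlib
import Pool.Agent.Helper27.MarkoffDefs
import Pool.Agent.Helper27.MarkoffExcDefs
import Pool.Agent.Helper27.MkEps
import Pool.Agent.Helper27.LiftOrb

set_option autoImplicit false

namespace Pool.Agent.Results.MP_c86b5e_nt.ThinExceptions

open Pool.Agent.Helper27

/-- The assertion of Q1 for the pair `(p, k)`: `M_k(F_p) \ E_k` is a single orbit. -/
def SingleOrbit (p : ℕ) [Fact p.Prime] (k : ZMod p) : Prop :=
  ∃ P ∈ markoffLevel (ZMod p) k, markoffLevel (ZMod p) k \ exceptionalSet (ZMod p) k =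
    MulAction.orbit (markoffGroup (ZMod p)) P

/-- The pairs `(p, k)`, `p ≤ N` prime, `0 ≤ k < p`, `k ≠ ±2` mod `p`, for which Q1 fails. -/
def failingPairs (N : ℕ) : Set (ℕ × ℕ) :=
  {q | ∃ h : q.1.Prime, q.1 ≤ N ∧ q.2 < q.1 ∧ (q.2 : ZMod q.1) ≠ 2 ∧ (q.2 : ZMod q.1) ≠ -2 ∧
    ¬ @SingleOrbit q.1 ⟨h⟩ (q.2 : ZMod q.1)}

open Classical in
/-- the levels of small order at `p`, as natural numbers -/
noncomputable def badLevels (p1 N p : ℕ) : Finset ℕ :=
  if h : p.Prime ∧ p1 ≤ p ∧ p ≤ N then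
    haveI : Fact p.Prime := ⟨h.1⟩
    (Finset.univ.filter
      (fun k : ZMod p => orderOf (-(wOf p k)) ≤ smallB (Dv p).card)).image ZMod.val
  else ∅

theorem good_single {p : ℕ} [Fact p.Prime] {k : ZMod p} (hk : k ≠ 2) {S : ℕ}
    (hgood : GoodPrime S p) (h2 : 2 ≤ S) (hpS : S ^ 4 < p) (hp17 : 17 ≤ p)
    (hP : 10 * (32 * (Dv p).card) ^ 4 ≤ p)
    (hP2 : (Dv p).card * (4 * (2 ^ 36 * (Dv p).card ^ 6) + 4) < p - 1)
    (hB : smallB (Dv p).card ≤ S) : SingleOrbit p k :=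
  single_of_good hk hgood h2 hpS hp17 hP hP2 hB

theorem pairs_count (δ : ℝ) (hδ : 0 < δ) : ∃ p1 : ℕ, ∀ N : ℕ, 1 ≤ N →
    (failingPairs N).Finite ∧
    ((failingPairs N).ncard : ℝ) ≤ ((p1 : ℝ) ^ 2 + 5 * 3 ^ 24) * ((N : ℝ) ^ δ) ^ 25 := by
  classical
  obtain ⟨p0, hp0⟩ := eventually_conditions δ hδ
  refine ⟨p0 + 17, fun N hN => ?_⟩
  set p1 := p0 + 17 with hp1
  set x : ℝ := (N : ℝ) ^ δ with hx
  have hN1 : (1 : ℝ) ≤ N := by exact_mod_cast hN
  have hx1 : 1 ≤ x := Real.one_le_rpow hN1 hδ.le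
  obtain ⟨S, hS2, hSx, hSle⟩ : ∃ S : ℕ, 2 ≤ S ∧ x ≤ S ∧ (S : ℝ) ≤ 3 * x := by
    refine ⟨⌈x⌉₊ + 1, ?_, ?_, ?_⟩
    · have : 0 < ⌈x⌉₊ := Nat.ceil_pos.2 (by linarith)
      omega
    · push_cast
      have := Nat.le_ceil x
      linarith
    · push_cast
      have := Nat.ceil_lt_add_one (show 0 ≤ x by linarith)
      linarith
  obtain ⟨T, hTcard, hT⟩ := bad_primes_finite S
  set T' : Finset ℕ := Finset.range (S ^ 4 + 1) ∪ T with hT'
  have hT'card : T'.card ≤ 5 * S ^ 24 := by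
    refine (Finset.card_union_le _ _).trans ?_
    rw [Finset.card_range]
    have h1 : S ^ 4 ≤ S ^ 24 := Nat.pow_le_pow_right (by omega) (by norm_num)
    have h2 : 1 ≤ S ^ 24 := Nat.one_le_pow _ _ (by omega)
    omega
  set cover : Finset (ℕ × ℕ) := (Finset.range p1 ×ˢ Finset.range p1) ∪
    T'.biUnion (fun p => (badLevels p1 N p).image (fun k => (p, k))) with hcover
  have hsub : failingPairs N ⊆ (cover : Set (ℕ × ℕ)) := by
    rintro ⟨p, k⟩ ⟨hp, hpN, hkp, hk2, hk2', hns⟩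
    simp only at hp hpN hkp hk2 hk2' hns
    have : Fact p.Prime := ⟨hp⟩
    rw [hcover, Finset.coe_union]
    by_cases hpp1 : p < p1
    · left
      rw [Finset.mem_coe, Finset.mem_product]
      exact ⟨Finset.mem_range.2 hpp1, Finset.mem_range.2 (by simp only; omega)⟩
    · right
      push Not at hpp1
      obtain ⟨c1, c2, c3, c4, c5⟩ := hp0 p (by omega)
      rw [Finset.mem_coe, Finset.mem_biUnion]
      refine ⟨p, ?_, Finset.mem_image.2 ⟨k, ?_, rfl⟩⟩
      · by_contra hpT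
        rw [hT', Finset.mem_union] at hpT
        push Not at hpT
        obtain ⟨hp4, hpT⟩ := hpT
        rw [Finset.mem_range] at hp4
        have hgood : GoodPrime S p := by
          by_contra hbad
          exact hpT (hT p hp hbad)
        have hpS : S ^ 4 < p := by omega
        have hp17 : 17 ≤ p := by omega
        refine hns (good_single hk2 hgood hS2 hpS hp17 c1 c2 ?_)
        have h1 : ((smallB (Dv p).card : ℕ) : ℝ) ≤ (S : ℝ) := by
          refine c4.le.trans (le_trans ?_ hSx)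
          exact Real.rpow_le_rpow (by positivity) (by exact_mod_cast hpN) hδ.le
        exact_mod_cast h1
      · unfold badLevels
        rw [dif_pos ⟨hp, hpp1, hpN⟩, Finset.mem_image]
        refine ⟨(k : ZMod p), ?_, ?_⟩
        · rw [Finset.mem_filter]
          refine ⟨Finset.mem_univ _, ?_⟩
          by_contra hcon
          push Not at hcon
          exact hns (single_of_large hk2 hk2' c1 c2 (wOf p _) (wOf_spec p _) hcon)
        · rw [ZMod.val_natCast, Nat.mod_eq_of_lt hkp]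
  refine ⟨(Finset.finite_toSet cover).subset hsub, ?_⟩
  have hcard1 : ((failingPairs N).ncard : ℝ) ≤ (cover.card : ℝ) := by
    have := Set.ncard_le_ncard hsub (Finset.finite_toSet cover)
    rw [Set.ncard_coe_finset] at this
    exact_mod_cast this
  have hbad : ∀ p : ℕ, ((badLevels p1 N p).card : ℝ) ≤ x := by
    intro p
    unfold badLevels
    split_ifs with h
    · have : Fact p.Prime := ⟨h.1⟩
      obtain ⟨c1, c2, c3, c4, c5⟩ := hp0 p (by omega)
      have h1 : ((Finset.univ.filter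
          (fun k : ZMod p => orderOf (-(wOf p k)) ≤ smallB (Dv p).card)).image ZMod.val).card ≤
          smallB (Dv p).card * smallB (Dv p).card :=
        Finset.card_image_le.trans (few_levels (p := p) (smallB (Dv p).card))
      refine le_trans (by exact_mod_cast h1) (c5.trans ?_)
      exact Real.rpow_le_rpow (by positivity) (by exact_mod_cast h.2.2) hδ.le
    · simp
      linarith
  have hcard2 : (cover.card : ℝ) ≤ (p1 : ℝ) ^ 2 + (T'.card : ℝ) * x := by
    have h1 : cover.card ≤ p1 * p1 + ∑ p ∈ T', (badLevels p1 N p).card := by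
      rw [hcover]
      refine (Finset.card_union_le _ _).trans ?_
      rw [Finset.card_product, Finset.card_range]
      gcongr
      refine Finset.card_biUnion_le.trans (Finset.sum_le_sum (fun p _ => Finset.card_image_le))
    have h2 : (cover.card : ℝ) ≤ (p1 : ℝ) * p1 + ∑ p ∈ T', ((badLevels p1 N p).card : ℝ) := by
      exact_mod_cast h1
    have h3 : ∑ p ∈ T', ((badLevels p1 N p).card : ℝ) ≤ ∑ _p ∈ T', x :=
      Finset.sum_le_sum (fun p _ => hbad p)
    rw [Finset.sum_const, nsmul_eq_mul] at h3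
    rw [pow_two]
    linarith
  have h5 : (T'.card : ℝ) ≤ 5 * (3 * x) ^ 24 := by
    have h1 : (T'.card : ℝ) ≤ 5 * (S : ℝ) ^ 24 := by exact_mod_cast hT'card
    have h2 : (S : ℝ) ^ 24 ≤ (3 * x) ^ 24 := pow_le_pow_left₀ (by positivity) hSle 24
    linarith
  have h6 : (T'.card : ℝ) * x ≤ 5 * 3 ^ 24 * x ^ 25 := by
    have h7 : (T'.card : ℝ) * x ≤ 5 * (3 * x) ^ 24 * x :=
      mul_le_mul_of_nonneg_right h5 (by linarith)
    have e : 5 * (3 * x) ^ 24 * x = 5 * 3 ^ 24 * x ^ 25 := by ring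
    rw [e] at h7
    exact h7
  have h8 : (p1 : ℝ) ^ 2 ≤ (p1 : ℝ) ^ 2 * x ^ 25 := by
    have : (1 : ℝ) ≤ x ^ 25 := one_le_pow₀ hx1
    nlinarith [sq_nonneg (p1 : ℝ)]
  calc ((failingPairs N).ncard : ℝ) ≤ cover.card := hcard1
    _ ≤ (p1 : ℝ) ^ 2 + (T'.card : ℝ) * x := hcard2
    _ ≤ (p1 : ℝ) ^ 2 * x ^ 25 + 5 * 3 ^ 24 * x ^ 25 := add_le_add h8 h6
    _ = ((p1 : ℝ) ^ 2 + 5 * 3 ^ 24) * x ^ 25 := by ring

/-- For every `ε > 0` and all large `N`, Q1 fails for at most `N^ε` pairs `(p, k)` with `p ≤ N`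
prime and `k ∈ F_p`, `k ≠ ±2`. In particular, for all primes `p ≤ N` with at most `N^ε` exceptions,
Q1 holds at every level `k ≠ ±2` of `F_p`. -/
theorem result (ε : ℝ) (hε : 0 < ε) : ∃ N₀ : ℕ, ∀ N : ℕ, N₀ ≤ N →
    (failingPairs N).Finite ∧ ((failingPairs N).ncard : ℝ) ≤ (N : ℝ) ^ ε := by
  obtain ⟨p1, hp1⟩ := pairs_count (ε / 26) (by positivity)
  set C : ℝ := (p1 : ℝ) ^ 2 + 5 * 3 ^ 24 with hC
  have hCpos : 0 < C := by positivity
  refine ⟨⌈C ^ (26 / ε)⌉₊ + 1, fun N hN => ?_⟩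
  obtain ⟨h1, h2⟩ := hp1 N (by omega)
  refine ⟨h1, h2.trans ?_⟩
  have hN0 : (0 : ℝ) < N := by
    have : 0 < N := by omega
    exact_mod_cast this
  have hCN : C ≤ (N : ℝ) ^ (ε / 26) := by
    have h3 : C ^ (26 / ε) ≤ N := by
      refine (Nat.le_ceil _).trans ?_
      exact_mod_cast (by omega : ⌈C ^ (26 / ε)⌉₊ ≤ N)
    have h4 := Real.rpow_le_rpow (by positivity) h3 (show 0 ≤ ε / 26 by positivity)
    rw [← Real.rpow_mul hCpos.le] at h4
    have e : 26 / ε * (ε / 26) = 1 := by field_simp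
    rw [e, Real.rpow_one] at h4
    exact h4
  calc C * ((N : ℝ) ^ (ε / 26)) ^ 25 ≤ (N : ℝ) ^ (ε / 26) * ((N : ℝ) ^ (ε / 26)) ^ 25 :=
        mul_le_mul_of_nonneg_right hCN (by positivity)
    _ = ((N : ℝ) ^ (ε / 26)) ^ 26 := by ring
    _ = (N : ℝ) ^ ε := by
        rw [← Real.rpow_natCast, ← Real.rpow_mul hN0.le]
        congr 1
        push_cast
        field_simp

end Pool.Agent.Results.MP_c86b5e_nt.ThinExceptions
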